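import Mathlib

set_option autoImplicit false

/-!
The key lemma: in characteristic two, if `β` has degree four over the field with `2 ^ n` elements
(`n ≥ 7`) and `A ≠ 0`, then the trace of `A / (z + β)` is not constant for `z` in that field.
-/

open Finset Polynomial

namespace Pool.Agent.H294R2.Ramsey

/-- the representative of the residue `b` in the window `[l, l + n)` -/
def ee (n l b : ℕ) : ℕ := if b < l % n then b + n * (l / n + 1) else b + n * (l / n)

theorem prod_ee {M : Type*} [CommMonoid M] (n l : ℕ) (hn : 0 < n) (f : ℕ → M) :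
    ∏ b ∈ range n, f (ee n l b) = ∏ a ∈ Ico l (l + n), f a := by
  have hl : n * (l / n) + l % n = l := Nat.div_add_mod l n
  have ht : l % n < n := Nat.mod_lt _ hn
  have e1 : n * (l / n + 1) = n * (l / n) + n := by ring
  refine Finset.prod_nbij (fun b => ee n l b) ?_ ?_ ?_ ?_
  · intro b hb
    simp only [mem_range] at hb
    simp only [mem_Ico, ee]
    split_ifs with h
    · rw [e1]; omega
    · omega
  · intro b hb c hc h
    simp only [coe_range, Set.mem_Iio] at hb hc
    simp only [ee] at h
    rw [e1] at h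
    split_ifs at h with h1 h2 h2 <;> omega
  · intro a ha
    simp only [coe_Ico, Set.mem_Ico] at ha
    simp only [Set.mem_image, coe_range, Set.mem_Iio]
    by_cases h : a < n * (l / n) + n
    · refine ⟨a - n * (l / n), by omega, ?_⟩
      simp only [ee]
      rw [if_neg (by omega)]
      omega
    · refine ⟨a - (n * (l / n) + n), by omega, ?_⟩
      simp only [ee]
      rw [if_pos (by omega), e1]
      omega
  · intro b _; rfl

variable {L : Type*} [Field L] [CharP L 2]

theorem add_pow_two_pow (x y : L) (l : ℕ) : (x + y) ^ (2 ^ l) = x ^ (2 ^ l) + y ^ (2 ^ l) :=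
  add_pow_char_pow x y (p := 2) (n := l)

theorem pow_two_pow_add_mul (n : ℕ) (z : L) (hz : z ^ (2 ^ n) = z) (b i : ℕ) :
    z ^ (2 ^ (b + n * i)) = z ^ (2 ^ b) := by
  induction i with
  | zero => simp
  | succ i ih =>
    have : b + n * (i + 1) = n + (b + n * i) := by ring
    rw [this, pow_add, pow_mul, hz, ih]

theorem geom_two (n : ℕ) : ∑ a ∈ range n, 2 ^ a = 2 ^ n - 1 := by
  have := Nat.geomSum_eq (le_refl 2) n
  simpa using this

theorem window (n : ℕ) (hn : 0 < n) (β z : L) (hz : z ^ (2 ^ n) = z) (l : ℕ) :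
    ∏ b ∈ range n, (z ^ (2 ^ b) + β ^ (2 ^ (ee n l b))) = ((z + β) ^ (2 ^ n - 1)) ^ (2 ^ l) := by
  have h1 : ∏ b ∈ range n, (z ^ (2 ^ b) + β ^ (2 ^ (ee n l b))) =
      ∏ b ∈ range n, (z + β) ^ (2 ^ (ee n l b)) := by
    apply Finset.prod_congr rfl
    intro b _
    rw [add_pow_two_pow]
    congr 1
    unfold ee
    split_ifs
    · rw [pow_two_pow_add_mul n z hz]
    · rw [pow_two_pow_add_mul n z hz]
  rw [h1, prod_ee n l hn (fun a => (z + β) ^ (2 ^ a)), Finset.prod_pow_eq_pow_sum,
    Finset.sum_Ico_eq_sum_range, Nat.add_sub_cancel_left]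
  have h2 : ∑ k ∈ range n, 2 ^ (l + k) = (2 ^ n - 1) * 2 ^ l := by
    rw [← geom_two, Finset.sum_mul]
    apply Finset.sum_congr rfl
    intro k _
    ring
  rw [h2, pow_mul]

theorem two_eq_zero' : (2 : L) = 0 := CharTwo.two_eq_zero

theorem inv_eq (n : ℕ) (β z : L) (hz : z ^ (2 ^ n) = z) (hne : z + β ≠ 0)
    (hd : β + β ^ (2 ^ n) ≠ 0) :
    (z + β)⁻¹ = (β + β ^ (2 ^ n))⁻¹ * (1 + (z + β) ^ (2 ^ n - 1)) := by
  have h1 : (z + β) * (z + β) ^ (2 ^ n - 1) = z + β ^ (2 ^ n) := by
    rw [← pow_succ', Nat.sub_add_cancel Nat.one_le_two_pow, add_pow_two_pow, hz]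
  have h2 : (z + β) * (1 + (z + β) ^ (2 ^ n - 1)) = β + β ^ (2 ^ n) := by
    rw [mul_add, h1, mul_one]
    have : z + β + (z + β ^ (2 ^ n)) = (z + z) + (β + β ^ (2 ^ n)) := by ring
    rw [this, CharTwo.add_self_eq_zero, zero_add]
  field_simp
  rw [h2]

/-- the multilinear extension of a function which is constant on the points `(z, z², z⁴, …)` -/
theorem multilinear (n m : ℕ) (v : ℕ → L) (B : ℕ → ℕ → L) (κ : L)
    (Z : Finset L) (hZ : Z.card = 2 ^ n)
    (h : ∀ z ∈ Z, ∑ l ∈ range m, v l * ∏ b ∈ range n, (z ^ (2 ^ b) + B l b) = κ)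
    (u : ℕ → L) : ∑ l ∈ range m, v l * ∏ b ∈ range n, (u b + B l b) = κ := by
  classical
  set c : Finset ℕ → L := fun I => ∑ l ∈ range m, v l * ∏ b ∈ range n \ I, B l b with hc
  have expand : ∀ w : ℕ → L, ∑ l ∈ range m, v l * ∏ b ∈ range n, (w b + B l b) =
      ∑ I ∈ (range n).powerset, (∏ b ∈ I, w b) * c I := by
    intro w
    simp only [Finset.prod_add, hc, Finset.mul_sum]
    rw [Finset.sum_comm]
    apply Finset.sum_congr rfl
    intro I _
    apply Finset.sum_congr rfl
    intro l _
    ring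
  set e : Finset ℕ → ℕ := fun I => ∑ b ∈ I, 2 ^ b with he
  have hinj : Function.Injective e := Finset.geomSum_injective (le_refl 2)
  set P : L[X] := ∑ I ∈ (range n).powerset, C (c I) * X ^ (e I) with hP
  have hPdeg : (P - C κ).natDegree < 2 ^ n := by
    have h1 : P.natDegree ≤ 2 ^ n - 1 := by
      apply Polynomial.natDegree_sum_le_of_forall_le
      intro I hI
      refine (Polynomial.natDegree_C_mul_X_pow_le _ _).trans ?_
      have : e I < 2 ^ n := by
        apply Nat.geomSum_lt (le_refl 2)
        intro k hk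
        exact mem_range.mp (mem_powerset.mp hI hk)
      omega
    have h2 : (P - C κ).natDegree ≤ 2 ^ n - 1 := by
      refine (Polynomial.natDegree_sub_le _ _).trans (max_le h1 ?_)
      simp
    have : 0 < 2 ^ n := by positivity
    omega
  have hzero : P - C κ = 0 := by
    apply Polynomial.eq_zero_of_natDegree_lt_card_of_eval_eq_zero' (P - C κ) Z
    · intro z hz
      have h1 := h z hz
      rw [expand (fun b => z ^ (2 ^ b))] at h1
      simp only [hP, Polynomial.eval_sub, Polynomial.eval_finset_sum, Polynomial.eval_mul,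
        Polynomial.eval_C, Polynomial.eval_pow, Polynomial.eval_X]
      rw [sub_eq_zero, ← h1]
      apply Finset.sum_congr rfl
      intro I _
      rw [Finset.prod_pow_eq_pow_sum, mul_comm]
    · rw [hZ]; exact hPdeg
  have hcoeff : ∀ I ∈ (range n).powerset, I ≠ ∅ → c I = 0 := by
    intro I hI hne
    have h1 : (P - C κ).coeff (e I) = 0 := by rw [hzero]; simp
    have he0 : e I ≠ 0 := by
      intro h0
      apply hne
      apply hinj
      simp only [he, Finset.sum_empty] at h0 ⊢
      exact h0
    rw [Polynomial.coeff_sub, Polynomial.coeff_C_ne_zero he0, sub_zero, hP,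
      Polynomial.finset_sum_coeff] at h1
    simp only [Polynomial.coeff_C_mul_X_pow] at h1
    rw [Finset.sum_eq_single I] at h1
    · simpa using h1
    · intro J _ hJ
      rw [if_neg]
      intro h2
      exact hJ (hinj h2.symm)
    · intro h2; exact absurd hI h2
  have hempty : c ∅ = κ := by
    have h1 : (P - C κ).coeff 0 = 0 := by rw [hzero]; simp
    rw [Polynomial.coeff_sub, Polynomial.coeff_C_zero, hP, Polynomial.finset_sum_coeff] at h1
    simp only [Polynomial.coeff_C_mul_X_pow] at h1
    rw [Finset.sum_eq_single ∅] at h1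
    · have : e ∅ = 0 := by simp [he]
      rw [this, if_pos rfl] at h1
      exact sub_eq_zero.mp h1
    · intro J _ hJ
      rw [if_neg]
      intro h2
      apply hJ
      apply hinj
      rw [← h2]
      simp [he]
    · intro h2; exact absurd (Finset.empty_mem_powerset _) h2
  rw [expand u, Finset.sum_eq_single ∅]
  · simp [hempty]
  · intro I hI hne
    rw [hcoeff I hI hne, mul_zero]
  · intro h2; exact absurd (Finset.empty_mem_powerset _) h2

theorem pow4 (n : ℕ) (β : L) (hβ : β ^ (2 ^ (4 * n)) = β) (b : ℕ) :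
    β ^ (2 ^ (b + n * 4)) = β ^ (2 ^ b) := by
  have : b + n * 4 = 4 * n + b := by ring
  rw [this, pow_add, pow_mul, hβ]

theorem ee_lt (n l b : ℕ) (h : b < l % n) : ee n l b = b + n * (l / n + 1) := by
  simp [ee, h]

theorem ee_ge (n l b : ℕ) (h : l % n ≤ b) : ee n l b = b + n * (l / n) := by
  simp [ee, not_lt.mpr h]

theorem frob_inj (x y : L) (b : ℕ) (h : x ^ (2 ^ b) = y ^ (2 ^ b)) : x = y := by
  have h1 : (x + y) ^ (2 ^ b) = 0 := by
    rw [add_pow_two_pow, h, CharTwo.add_self_eq_zero]
  have h2 : x + y = 0 := by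
    by_contra hne
    exact pow_ne_zero _ hne h1
  exact CharTwo.add_eq_zero.mp h2

/-- **Key lemma.** -/
theorem key (n : ℕ) (hn : 7 ≤ n) (β A κ : L) (hβ : β ^ (2 ^ (4 * n)) = β)
    (hβ2 : β ^ (2 ^ (2 * n)) ≠ β) (hA : A ≠ 0) (Z : Finset L) (hZ : Z.card = 2 ^ n)
    (hZ' : ∀ z ∈ Z, z ^ (2 ^ n) = z)
    (h : ∀ z ∈ Z, ∑ l ∈ range (4 * n), (A / (z + β)) ^ (2 ^ l) = κ) : False := by
  have hn0 : 0 < n := by omega
  -- the conjugates of `β` are distinct
  have c1 : β ^ (2 ^ n) ≠ β := by
    intro h1
    apply hβ2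
    have : 2 * n = n + n := by ring
    rw [this, pow_add, pow_mul, h1, h1]
  have c2 : β ^ (2 ^ (n * 2)) ≠ β := by rwa [mul_comm]
  have c3 : β ^ (2 ^ (n * 3)) ≠ β := by
    intro h1
    apply c1
    have h2 : β ^ (2 ^ (4 * n)) = β ^ (2 ^ n) := by
      have : 4 * n = n * 3 + n := by ring
      rw [this, pow_add, pow_mul, h1]
    rw [← h2, hβ]
  have hd : β + β ^ (2 ^ n) ≠ 0 := by
    intro h1
    exact c1 (CharTwo.add_eq_zero.mp h1).symm
  have hzβ : ∀ z ∈ Z, z + β ≠ 0 := by
    intro z hz h1
    have h2 : z = β := CharTwo.add_eq_zero.mp h1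
    apply c1
    rw [← h2]
    exact hZ' z hz
  set A' : L := A * (β + β ^ (2 ^ n))⁻¹ with hA'
  have hA'0 : A' ≠ 0 := mul_ne_zero hA (inv_ne_zero hd)
  set v : ℕ → L := fun l => A' ^ (2 ^ l) with hv
  set κ' : L := κ - ∑ l ∈ range (4 * n), v l with hκ'
  have h' : ∀ z ∈ Z, ∑ l ∈ range (4 * n), v l *
      ∏ b ∈ range n, (z ^ (2 ^ b) + β ^ (2 ^ (ee n l b))) = κ' := by
    intro z hz
    rw [hκ', ← h z hz, ← Finset.sum_sub_distrib]
    apply Finset.sum_congr rfl
    intro l _
    rw [window n hn0 β z (hZ' z hz) l, div_eq_mul_inv,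
      inv_eq n β z (hZ' z hz) (hzβ z hz) hd, ← mul_assoc, ← hA', mul_pow, add_pow_two_pow, one_pow]
    ring
  have hG := multilinear n (4 * n) v (fun l b => β ^ (2 ^ (ee n l b))) κ' Z hZ h'
  -- two special points
  let base : ℕ → L := fun b =>
    if b = 2 then β ^ (2 ^ (2 + n * 2)) else if b = 3 then β ^ (2 ^ (3 + n * 3))
    else if b = 4 then β ^ (2 ^ (4 + n * 1)) else if b = 5 then β ^ (2 ^ (5 + n * 2))
    else if b = 6 then β ^ (2 ^ (6 + n * 3)) else β ^ (2 ^ b) + 1
  let u : ℕ → L := fun b => if b = 0 then β ^ (2 ^ (0 + n * 0)) else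
    if b = 1 then β ^ (2 ^ (1 + n * 1)) else base b
  let u' : ℕ → L := fun b => if b = 0 then β ^ (2 ^ (0 + n * 1)) else
    if b = 1 then β ^ (2 ^ (1 + n * 0)) else base b
  have kill : ∀ (w : ℕ → L) (l b : ℕ), b < n → w b = β ^ (2 ^ (ee n l b)) →
      v l * ∏ b ∈ range n, (w b + β ^ (2 ^ (ee n l b))) = 0 := by
    intro w l b hb hw
    rw [Finset.prod_eq_zero (mem_range.mpr hb) (by rw [hw, CharTwo.add_self_eq_zero]), mul_zero]
  have hdiv : ∀ l < 4 * n, l / n < 4 := by
    intro l hl
    rw [Nat.div_lt_iff_lt_mul hn0]; exact hl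
  -- common part
  have common : ∀ w : ℕ → L, (∀ b, 2 ≤ b → w b = base b) → ∀ l < 4 * n,
      (l % n ≤ 4 ∧ l / n ≠ 0) ∨ (2 < l % n ∧ l / n = 1) ∨ (3 < l % n ∧ l / n = 2) →
      v l * ∏ b ∈ range n, (w b + β ^ (2 ^ (ee n l b))) = 0 := by
    intro w hw l hl hcase
    have hj := hdiv l hl
    rcases hcase with ⟨h1, h2⟩ | ⟨h1, h2⟩ | ⟨h1, h2⟩
    · have h3 : l / n = 1 ∨ l / n = 2 ∨ l / n = 3 := by
        clear h1 hw hl
        generalize l / n = j at *
        omega
      rcases h3 with h3 | h3 | h3
      · refine kill w l 4 (by omega) ?_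
        rw [hw 4 (by norm_num), ee_ge n l 4 (by omega), h3]
        simp [base]
      · refine kill w l 5 (by omega) ?_
        rw [hw 5 (by norm_num), ee_ge n l 5 (by omega), h3]
        simp [base]
      · refine kill w l 6 (by omega) ?_
        rw [hw 6 (by norm_num), ee_ge n l 6 (by omega), h3]
        simp [base]
    · refine kill w l 2 (by omega) ?_
      rw [hw 2 (by norm_num), ee_lt n l 2 (by omega), h2]
      simp [base]
    · refine kill w l 3 (by omega) ?_
      rw [hw 3 (by norm_num), ee_lt n l 3 (by omega), h2]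
      simp [base]
  have hu' : ∑ l ∈ range (4 * n), v l * ∏ b ∈ range n, (u' b + β ^ (2 ^ (ee n l b))) = 0 := by
    apply Finset.sum_eq_zero
    intro l hl
    have hl' := mem_range.mp hl
    have hj := hdiv l hl'
    by_cases hcase : (l % n ≤ 4 ∧ l / n ≠ 0) ∨ (2 < l % n ∧ l / n = 1) ∨ (3 < l % n ∧ l / n = 2)
    · exact common u' (fun b hb => by
        have h1 : b ≠ 0 := by omega
        have h2 : b ≠ 1 := by omega
        simp [u', h1, h2]) l hl' hcase
    · have h3 : (l / n = 0 ∧ l % n = 0) ∨ (l / n = 0 ∧ 0 < l % n) ∨ (l / n = 3 ∧ 4 < l % n) := by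
        revert hj hcase
        generalize l / n = j
        generalize l % n = t
        intro hj hcase
        omega
      rcases h3 with ⟨h3, h4⟩ | ⟨h3, h4⟩ | ⟨h3, h4⟩
      · refine kill u' l 1 (by omega) ?_
        rw [ee_ge n l 1 (by omega), h3]
        simp [u']
      · refine kill u' l 0 (by omega) ?_
        rw [ee_lt n l 0 (by omega), h3]
        simp [u']
      · refine kill u' l 1 (by omega) ?_
        rw [ee_lt n l 1 (by omega), h3]
        simp only [u']
        norm_num
        rw [pow4 n β hβ]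
        simp
  have hu : ∑ l ∈ range (4 * n), v l * ∏ b ∈ range n, (u b + β ^ (2 ^ (ee n l b))) =
      v 1 * ∏ b ∈ range n, (u b + β ^ (2 ^ (ee n 1 b))) := by
    rw [Finset.sum_eq_single 1]
    · intro l hl hl1
      have hl' := mem_range.mp hl
      have hj := hdiv l hl'
      by_cases hcase : (l % n ≤ 4 ∧ l / n ≠ 0) ∨ (2 < l % n ∧ l / n = 1) ∨
          (3 < l % n ∧ l / n = 2)
      · exact common u (fun b hb => by
          have h1 : b ≠ 0 := by omega
          have h2 : b ≠ 1 := by omega
          simp [u, h1, h2]) l hl' hcase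
      · have hne : ¬ (l / n = 0 ∧ l % n = 1) := by
          rintro ⟨h1, h2⟩
          apply hl1
          have := Nat.div_add_mod l n
          rw [h1, h2] at this
          omega
        have h3 : (l / n = 0 ∧ l % n = 0) ∨ (l / n = 0 ∧ 1 < l % n) ∨
            (l / n = 3 ∧ 4 < l % n) := by
          revert hj hcase hne
          generalize l / n = j
          generalize l % n = t
          intro hj hcase hne
          omega
        rcases h3 with ⟨h3, h4⟩ | ⟨h3, h4⟩ | ⟨h3, h4⟩
        · refine kill u l 0 (by omega) ?_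
          rw [ee_ge n l 0 (by omega), h3]
          simp [u]
        · refine kill u l 1 (by omega) ?_
          rw [ee_lt n l 1 (by omega), h3]
          simp [u]
        · refine kill u l 0 (by omega) ?_
          rw [ee_lt n l 0 (by omega), h3]
          simp only [u]
          norm_num
          have := pow4 n β hβ 0
          simpa using this.symm
    · intro h1
      exfalso
      apply h1
      rw [mem_range]; omega
  have hGu := hG u
  have hGu' := hG u'
  rw [hu] at hGu
  rw [hu', ← hGu] at hGu'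
  have hmod : 1 % n = 1 := Nat.mod_eq_of_lt (by omega)
  have hdv : 1 / n = 0 := Nat.div_eq_of_lt (by omega)
  have hprod : ∏ b ∈ range n, (u b + β ^ (2 ^ (ee n 1 b))) ≠ 0 := by
    rw [Finset.prod_ne_zero_iff]
    intro b hb h1
    have h2 : u b = β ^ (2 ^ (ee n 1 b)) := CharTwo.add_eq_zero.mp h1
    rcases Nat.eq_zero_or_pos b with h0 | hpos
    · subst h0
      rw [ee_lt n 1 0 (by omega), hdv] at h2
      simp [u] at h2
      exact c1 h2.symm
    · rw [ee_ge n 1 b (by omega), hdv, mul_zero, add_zero] at h2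
      have gen : ∀ j, β ^ (2 ^ (n * j)) ≠ β → β ^ (2 ^ (b + n * j)) ≠ β ^ (2 ^ b) := by
        intro j hj h3
        apply hj
        apply frob_inj _ _ b
        rw [← h3, ← pow_mul, ← pow_add, add_comm b]
      by_cases b1 : b = 1
      · subst b1
        simp only [u] at h2
        norm_num at h2
        exact gen 1 (by simpa using c1) (by simpa using h2)
      by_cases b2 : b = 2
      · subst b2
        simp only [u, base] at h2
        norm_num at h2
        exact gen 2 c2 h2
      by_cases b3 : b = 3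
      · subst b3
        simp only [u, base] at h2
        norm_num at h2
        exact gen 3 c3 h2
      by_cases b4 : b = 4
      · subst b4
        simp only [u, base] at h2
        norm_num at h2
        exact gen 1 (by simpa using c1) (by simpa using h2)
      by_cases b5 : b = 5
      · subst b5
        simp only [u, base] at h2
        norm_num at h2
        exact gen 2 c2 h2
      by_cases b6 : b = 6
      · subst b6
        simp only [u, base] at h2
        norm_num at h2
        exact gen 3 c3 h2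
      have b0 : b ≠ 0 := by omega
      simp only [u, base, b0, b1, b2, b3, b4, b5, b6, if_false] at h2
      simp at h2
  exact mul_ne_zero (pow_ne_zero _ hA'0) hprod hGu'.symm

end Pool.Agent.H294R2.Ramsey
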