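import Mathlib
import Pool.Agent.H294R2.Ramsey.Key

set_option autoImplicit false

/-!
The induction step: from the subgroup of order `N` of the field with `2 ^ m` elements to the
subgroup of order `N (2 ^ (2 m) + 1)` of the field with `2 ^ (4 m)` elements.
-/

open Finset Polynomial

namespace Pool.Agent.H294R2.Ramsey

variable {L : Type*} [Field L] [CharP L 2]

/-- absolute trace, as a polynomial function -/
def tr (M : ℕ) (x : L) : L := ∑ l ∈ range M, x ^ (2 ^ l)

theorem tr_add (M : ℕ) (x y : L) : tr M (x + y) = tr M x + tr M y := by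
  unfold tr
  rw [← Finset.sum_add_distrib]
  apply Finset.sum_congr rfl
  intro l _
  exact add_pow_two_pow x y l

theorem tr_sq_add (M : ℕ) (x : L) : tr M x ^ 2 + tr M x = x ^ (2 ^ M) + x := by
  induction M with
  | zero => simp [tr, CharTwo.add_self_eq_zero]
  | succ M ih =>
    have h1 : tr (M + 1) x = tr M x + x ^ (2 ^ M) := by
      unfold tr; rw [Finset.sum_range_succ]
    rw [h1]
    have h2 : (tr M x + x ^ 2 ^ M) ^ 2 = tr M x ^ 2 + x ^ (2 ^ (M + 1)) := by
      have := add_pow_two_pow (tr M x) (x ^ 2 ^ M) 1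
      rw [pow_one] at this
      rw [this, ← pow_mul, ← pow_succ]
    rw [h2]
    calc tr M x ^ 2 + x ^ 2 ^ (M + 1) + (tr M x + x ^ 2 ^ M)
        = (tr M x ^ 2 + tr M x) + x ^ 2 ^ (M + 1) + x ^ 2 ^ M := by ring
      _ = (x ^ (2 ^ M) + x) + x ^ 2 ^ (M + 1) + x ^ 2 ^ M := by rw [ih]
      _ = (x ^ (2 ^ M) + x ^ (2 ^ M)) + (x ^ 2 ^ (M + 1) + x) := by ring
      _ = x ^ 2 ^ (M + 1) + x := by rw [CharTwo.add_self_eq_zero, zero_add]

theorem tr_sq (M : ℕ) (x : L) : tr M (x ^ 2) = tr M x ^ 2 := by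
  unfold tr
  have h : (∑ l ∈ range M, x ^ (2 ^ l)) ^ 2 = ∑ l ∈ range M, (x ^ (2 ^ l)) ^ 2 := by
    rw [← CharTwo.sum_sq]
  rw [h]
  apply Finset.sum_congr rfl
  intro l _
  rw [← pow_mul, ← pow_mul, mul_comm]

/-- if `x ∈ F_{2^M}` then its trace is `0` or `1` -/
theorem tr_zero_or_one (M : ℕ) (x : L) (hx : x ^ (2 ^ M) = x) : tr M x = 0 ∨ tr M x = 1 := by
  have h := tr_sq_add M x
  rw [hx, CharTwo.add_self_eq_zero] at h
  have h2 : tr M x * (tr M x + 1) = 0 := by rw [← h]; ring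
  rcases mul_eq_zero.mp h2 with h3 | h3
  · left; exact h3
  · right; exact CharTwo.add_eq_zero.mp h3

theorem tr_inv_sq (M : ℕ) (s : L) (hs : s ≠ 0) (hs' : s ^ (2 ^ M) = s) :
    tr M ((1 + s) / s ^ 2) = 0 := by
  have h1 : (1 + s) / s ^ 2 = (1 / s) ^ 2 + 1 / s := by field_simp
  rw [h1, tr_add, tr_sq, tr_sq_add, one_div, inv_pow, hs', CharTwo.add_self_eq_zero]

/-- the condition that a triangle with norms `1, x, y` exists -/
def Tri (M : ℕ) (x y : L) : Prop := 1 + x + y = 0 ∨ tr M (x / (1 + x + y) ^ 2) = 1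

theorem fix_pow {q : ℕ} (x : L) (hx : x ^ q = x) (j : ℕ) : (x ^ j) ^ q = x ^ j := by
  rw [← pow_mul, mul_comm, pow_mul, hx]

theorem fix_mul {q : ℕ} {x y : L} (hx : x ^ q = x) (hy : y ^ q = y) : (x * y) ^ q = x * y := by
  rw [mul_pow, hx, hy]

theorem fix_inv {q : ℕ} {x : L} (hx : x ^ q = x) : (x⁻¹) ^ q = x⁻¹ := by
  rw [inv_pow, hx]

theorem fix_div {q : ℕ} {x y : L} (hx : x ^ q = x) (hy : y ^ q = y) : (x / y) ^ q = x / y := by
  rw [div_pow, hx, hy]

theorem fix_add {l : ℕ} {x y : L} (hx : x ^ (2 ^ l) = x) (hy : y ^ (2 ^ l) = y) :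
    (x + y) ^ (2 ^ l) = x + y := by
  rw [add_pow_two_pow, hx, hy]

theorem fix_mono {m : ℕ} {x : L} (hx : x ^ (2 ^ m) = x) (j : ℕ) : x ^ (2 ^ (m * j)) = x := by
  have := pow_two_pow_add_mul m x hx 0 j
  simpa using this

theorem fix_of_pow_eq {m N : ℕ} (hN : N ∣ 2 ^ m - 1) {a x : L} (ha0 : a ≠ 0)
    (ha : a ^ (2 ^ m) = a) (hx : x ^ N = a ^ N) : x ^ (2 ^ m) = x ∧ (x ≠ 0 ∨ N = 0) := by
  rcases Nat.eq_zero_or_pos N with hN0 | hN0
  · subst hN0
    have h1 : 2 ^ m - 1 = 0 := Nat.eq_zero_of_zero_dvd hN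
    have h2 : 2 ^ m = 1 := by
      have : 1 ≤ 2 ^ m := Nat.one_le_two_pow
      omega
    rw [h2, pow_one]; exact ⟨rfl, Or.inr rfl⟩
  have hx0 : x ≠ 0 := by
    intro h
    rw [h, zero_pow (by omega)] at hx
    exact pow_ne_zero _ ha0 hx.symm
  obtain ⟨c, hc⟩ := hN
  have h1 : a ^ (2 ^ m - 1) = 1 := by
    have h2 : a * a ^ (2 ^ m - 1) = a * 1 := by
      rw [← pow_succ', Nat.sub_add_cancel Nat.one_le_two_pow, ha, mul_one]
    exact mul_left_cancel₀ ha0 h2
  have h2 : x ^ (2 ^ m - 1) = 1 := by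
    rw [hc, pow_mul, hx, ← pow_mul, ← hc, h1]
  refine ⟨?_, Or.inl hx0⟩
  rw [← Nat.sub_add_cancel (Nat.one_le_two_pow (n := m)), pow_succ, h2, one_mul]

variable [IsAlgClosed L]

theorem exists_fixed_finset (n : ℕ) (hn : 0 < n) : ∃ Z : Finset L, Z.card = 2 ^ n ∧
    ∀ z, z ∈ Z ↔ z ^ (2 ^ n) = z := by
  classical
  set P : L[X] := X ^ (2 ^ n) - X with hP
  have h1 : 1 < 2 ^ n := Nat.one_lt_two_pow (by omega)
  have hdeg : P.natDegree = 2 ^ n := FiniteField.X_pow_card_sub_X_natDegree_eq L h1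
  have hP0 : P ≠ 0 := FiniteField.X_pow_card_sub_X_ne_zero L h1
  have hsep : P.Separable := galois_poly_separable 2 _ (dvd_pow_self 2 (by omega))
  refine ⟨P.roots.toFinset, ?_, ?_⟩
  · rw [Multiset.toFinset_card_of_nodup (nodup_roots hsep)]
    rw [← hdeg]
    exact (IsAlgClosed.splits P).natDegree_eq_card_roots.symm
  · intro z
    rw [Multiset.mem_toFinset, mem_roots hP0]
    simp [hP, IsRoot, sub_eq_zero]

/-- Large fields: the core statement when the first norm is not in the small field. -/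
theorem coreA (n N : ℕ) (hn : 7 ≤ n) (hN : 2 ^ n + 1 ∣ N) (α β' : L)
    (hβ0 : β' ≠ 0) (hα : α ^ (2 ^ (4 * n)) = α) (hβ : β' ^ (2 ^ (4 * n)) = β')
    (hα2 : α ^ (2 ^ (2 * n)) ≠ α) :
    ∃ x y : L, x ^ N = α ^ N ∧ y ^ N = β' ^ N ∧
      (1 + x + y = 0 ∨ tr (4 * n) (y / (1 + x + y) ^ 2) = 1) := by
  have hα0 : α ≠ 0 := by
    rintro rfl
    apply hα2
    rw [zero_pow (by positivity)]
  -- the element `δ`
  obtain ⟨δ, hδ⟩ : ∃ δ : L, δ ^ (2 ^ n) = δ + 1 := by
    have hd : (X ^ (2 ^ n) - X - 1 : L[X]).degree ≠ 0 := by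
      have h1 : 1 < 2 ^ n := Nat.one_lt_two_pow (by omega)
      have h2 : (X ^ (2 ^ n) - X - 1 : L[X]).natDegree = 2 ^ n := by
        have h3 : (X ^ (2 ^ n) - X - 1 : L[X]) = X ^ (2 ^ n) - (X + 1) := by ring
        rw [h3]
        rw [Polynomial.natDegree_sub_eq_left_of_natDegree_lt]
        · simp
        · rw [Polynomial.natDegree_X_pow]
          have : (X + 1 : L[X]).natDegree ≤ 1 := by
            have := Polynomial.natDegree_X_add_C (1 : L)
            simp at this
            exact this.le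
          omega
      intro h
      have := Polynomial.natDegree_eq_of_degree_eq_some h
      rw [h2] at this
      have h5 : 2 ^ n ≠ 0 := by positivity
      exact h5 this
    obtain ⟨δ, hδ⟩ := IsAlgClosed.exists_root _ hd
    refine ⟨δ, ?_⟩
    simp [IsRoot] at hδ
    have h4 : δ ^ (2 ^ n) - (δ + 1) = 0 := by rw [← hδ]; ring
    exact sub_eq_zero.mp h4
  have hδ2 : δ ^ (2 ^ (2 * n)) = δ := by
    have : 2 * n = n + n := by ring
    rw [this, pow_add, pow_mul, hδ, add_pow_two_pow, hδ, one_pow, add_assoc,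
      CharTwo.add_self_eq_zero, add_zero]
  have hδ4 : δ ^ (2 ^ (4 * n)) = δ := by
    have := fix_mono hδ2 2
    have h2 : 2 * n * 2 = 4 * n := by ring
    rwa [h2] at this
  have hδ0 : δ ≠ 0 := by
    rintro rfl
    rw [zero_pow (by positivity), zero_add] at hδ
    exact zero_ne_one hδ
  have hδ1 : δ + 1 ≠ 0 := by
    rw [← hδ]; exact pow_ne_zero _ hδ0
  -- a nontrivial element of the norm one group
  set w0 : L := δ / (δ + 1) with hw0
  have hw0N : w0 ^ N = 1 := by
    obtain ⟨c, rfl⟩ := hN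
    rw [pow_mul]
    have : w0 ^ (2 ^ n + 1) = 1 := by
      rw [pow_succ, hw0, div_pow, hδ, add_pow_two_pow, hδ, one_pow, add_assoc,
        CharTwo.add_self_eq_zero, add_zero]
      field_simp
    rw [this, one_pow]
  have hw02 : w0 ^ (2 ^ (2 * n)) = w0 := by
    rw [hw0]
    apply fix_div hδ2
    apply fix_add hδ2 (one_pow _)
  have hw04 : w0 ^ (2 ^ (4 * n)) = w0 := by
    have := fix_mono hw02 2
    have h2 : 2 * n * 2 = 4 * n := by ring
    rwa [h2] at this
  have hw01 : w0 ≠ 1 := by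
    intro h
    rw [hw0, div_eq_iff hδ1, one_mul] at h
    have h1 : (0 : L) = 1 := by
      have := congrArg (fun t => t - δ) h
      simpa using this
    exact zero_ne_one h1
  -- choice of `y`
  obtain ⟨y, hyN, hy0, hy4, hg⟩ : ∃ y : L, y ^ N = β' ^ N ∧ y ≠ 0 ∧ y ^ (2 ^ (4 * n)) = y ∧
      ((1 + y) / α) ^ (2 ^ (2 * n)) ≠ (1 + y) / α := by
    by_cases h1 : ((1 + β') / α) ^ (2 ^ (2 * n)) = (1 + β') / α
    · refine ⟨β' * w0, by rw [mul_pow, hw0N, mul_one], mul_ne_zero hβ0 (div_ne_zero hδ0 hδ1),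
        fix_mul hβ hw04, ?_⟩
      intro h2
      -- the difference
      have h3 : (β' / α * (1 + w0)) ^ (2 ^ (2 * n)) = β' / α * (1 + w0) := by
        have h4 : β' / α * (1 + w0) = (1 + β') / α + (1 + β' * w0) / α := by
          have : (1 + β') / α + (1 + β' * w0) / α = (1 + 1) / α + β' / α * (1 + w0) := by
            field_simp; ring
          rw [this, CharTwo.add_self_eq_zero, zero_div, zero_add]
        rw [h4]
        exact fix_add h1 h2
      have h5 : (1 + w0) ^ (2 ^ (2 * n)) = 1 + w0 := fix_add (one_pow _) hw02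
      have h6 : 1 + w0 ≠ 0 := by
        intro h; exact hw01 (CharTwo.add_eq_zero.mp h).symm
      have h7 : (β' / α) ^ (2 ^ (2 * n)) = β' / α := by
        have := fix_div h3 h5
        rwa [mul_div_assoc, div_self h6, mul_one] at this
      have h8 : (1 / α) ^ (2 ^ (2 * n)) = 1 / α := by
        have := fix_add h1 h7
        have h9 : (1 + β') / α + β' / α = 1 / α := by
          have : (1 + β') / α + β' / α = 1 / α + (β' + β') / α := by field_simp; ring
          rw [this, CharTwo.add_self_eq_zero, zero_div, add_zero]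
        rwa [h9] at this
      apply hα2
      have := fix_inv h8
      simpa using this
    · exact ⟨β', rfl, hβ0, hβ, h1⟩
  by_contra hcon
  push Not at hcon
  set B : L := 1 + y with hB
  have hB4 : B ^ (2 ^ (4 * n)) = B := fix_add (one_pow _) hy4
  have hBα : B + α ≠ 0 := by
    intro h
    apply hg
    rw [CharTwo.add_eq_zero.mp h, div_self hα0, one_pow]
  obtain ⟨y1, hy1⟩ : ∃ y1 : L, y1 ^ 2 = y := IsAlgClosed.exists_pow_nat_eq y (by norm_num)
  have hy10 : y1 ≠ 0 := by rintro rfl; apply hy0; rw [← hy1]; simp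
  set β : L := δ + B / (B + α) with hβdef
  set A : L := y1 * α / (B + α) ^ 2 with hA
  obtain ⟨Z, hZ, hZ'⟩ := exists_fixed_finset (L := L) n (by omega)
  have hτ : (B / (B + α)) ^ (2 ^ (2 * n)) ≠ B / (B + α) := by
    intro h
    apply hg
    have h1 : (1 + B / (B + α)) ^ (2 ^ (2 * n)) = 1 + B / (B + α) := fix_add (one_pow _) h
    have h2 : B / α = (B / (B + α)) / (1 + B / (B + α)) := by
      have h3 : 1 + B / (B + α) = α / (B + α) := by
        rw [eq_div_iff hBα, add_mul, div_mul_cancel₀ _ hBα, one_mul]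
        calc B + α + B = (B + B) + α := by ring
          _ = α := by rw [CharTwo.add_self_eq_zero, zero_add]
      rw [h3]
      field_simp
    rw [h2]
    exact fix_div h h1
  refine key n hn β A (tr (4 * n) (y1 / (B + α))) ?_ ?_ ?_ Z hZ (fun z hz => (hZ' z).mp hz) ?_
  · exact fix_add hδ4 (fix_div hB4 (fix_add hB4 hα))
  · rw [hβdef, add_pow_two_pow, hδ2]
    intro h
    exact hτ (add_left_cancel h)
  · exact div_ne_zero (mul_ne_zero hy10 hα0) (pow_ne_zero _ hBα)
  · intro z hz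
    have hz2 := (hZ' z).mp hz
    have hzδ : z + δ ≠ 0 := by
      intro h
      have h1 : z = δ := CharTwo.add_eq_zero.mp h
      rw [← h1, hz2] at hδ
      have h2 : (0 : L) = 1 := by
        have := congrArg (fun t => t - z) hδ
        simpa using this
      exact zero_ne_one h2
    have hzδ1 : z + δ + 1 ≠ 0 := by
      have h1 : (z + δ) ^ (2 ^ n) = z + δ + 1 := by
        rw [add_pow_two_pow, hz2, hδ, add_assoc]
      rw [← h1]; exact pow_ne_zero _ hzδ
    set w : L := (z + δ) / (z + δ + 1) with hw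
    have hwN : w ^ N = 1 := by
      obtain ⟨c, rfl⟩ := hN
      rw [pow_mul]
      have h1 : (z + δ) ^ (2 ^ n) = z + δ + 1 := by
        rw [add_pow_two_pow, hz2, hδ, add_assoc]
      have : w ^ (2 ^ n + 1) = 1 := by
        rw [pow_succ, hw, div_pow, h1, add_pow_two_pow (z + δ) 1, h1, one_pow, add_assoc (z + δ),
          CharTwo.add_self_eq_zero, add_zero]
        field_simp
      rw [this, one_pow]
    have hz4 : z ^ (2 ^ (4 * n)) = z := by
      have := fix_mono hz2 4
      have h2 : n * 4 = 4 * n := by ring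
      rwa [h2] at this
    have hw4 : w ^ (2 ^ (4 * n)) = w := by
      rw [hw]
      exact fix_div (fix_add hz4 hδ4) (fix_add (fix_add hz4 hδ4) (one_pow _))
    have hc := hcon (α * w) y (by rw [mul_pow, hwN, mul_one]) hyN
    set s : L := 1 + α * w + y with hs
    have hs4 : s ^ (2 ^ (4 * n)) = s := fix_add (fix_add (one_pow _) (fix_mul hα hw4)) hy4
    have htr : tr (4 * n) (y / s ^ 2) = 0 := by
      rcases tr_zero_or_one (4 * n) (y / s ^ 2) (fix_div hy4 (fix_pow s hs4 2)) with h | h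
      · exact h
      · exact absurd h hc.2
    have htr1 : tr (4 * n) (y1 / s) = 0 := by
      have h1 : y / s ^ 2 = (y1 / s) ^ 2 := by rw [div_pow, hy1]
      rw [h1, tr_sq] at htr
      exact pow_eq_zero_iff (by norm_num) |>.mp htr
    -- partial fractions
    have hs' : s = (B + α) * (z + β) / (z + δ + 1) := by
      rw [hs, hw, hβdef, hB]
      have h1 : (1 + y + α) * (z + (δ + (1 + y) / (1 + y + α))) =
          (1 + y + α) * (z + δ) + (1 + y) := by
        have : 1 + y + α ≠ 0 := hBα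
        field_simp
        ring
      rw [h1]
      rw [eq_div_iff hzδ1]
      have h2 : (1 + α * ((z + δ) / (z + δ + 1)) + y) * (z + δ + 1) =
          (1 + y) * (z + δ + 1) + α * (z + δ) := by
        field_simp
        ring
      rw [h2]
      ring
    have hzβ : z + β ≠ 0 := by
      intro h
      apply hc.1
      rw [hs', h, mul_zero, zero_div]
    have h3 : y1 / s = y1 / (B + α) + A / (z + β) := by
      have h4 : z + δ + 1 = (z + β) + α / (B + α) := by
        rw [hβdef]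
        have h5 : α / (B + α) = 1 - B / (B + α) := by
          rw [eq_sub_iff_add_eq, ← add_div, add_comm α B, div_self hBα]
        rw [h5]; ring
      rw [hs', hA]
      rw [h4]
      field_simp
    have h6 : tr (4 * n) (y1 / (B + α)) + tr (4 * n) (A / (z + β)) = 0 := by
      rw [← tr_add, ← h3, htr1]
    have h7 : tr (4 * n) (A / (z + β)) = tr (4 * n) (y1 / (B + α)) :=
      (CharTwo.add_eq_zero.mp h6).symm
    exact h7

/-- The core statement for large fields. -/
theorem core_large (n N : ℕ) (hn : 7 ≤ n) (hN : 2 ^ n + 1 ∣ N) (hN' : N ∣ 2 ^ (2 * n) - 1)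
    (hNpos : 0 < N) (α β' : L) (hα0 : α ≠ 0)
    (hβ0 : β' ≠ 0) (hα : α ^ (2 ^ (4 * n)) = α) (hβ : β' ^ (2 ^ (4 * n)) = β')
    (h2 : ¬ (α ^ (2 ^ (2 * n)) = α ∧ β' ^ (2 ^ (2 * n)) = β')) :
    ∃ x y : L, x ^ N = α ^ N ∧ y ^ N = β' ^ N ∧ Tri (4 * n) x y := by
  have hdvd : N ∣ 2 ^ (4 * n) - 1 := by
    refine hN'.trans ?_
    have : 4 * n = (2 * n) * 2 := by ring
    rw [this, pow_mul 2 (2 * n) 2]
    have := Nat.sub_dvd_pow_sub_pow (2 ^ (2 * n)) 1 2
    rwa [one_pow] at this
  by_cases hα2 : α ^ (2 ^ (2 * n)) = α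
  · have hβ2 : β' ^ (2 ^ (2 * n)) ≠ β' := fun h => h2 ⟨hα2, h⟩
    obtain ⟨x, y, hx, hy, h⟩ := coreA n N hn hN β' α hα0 hβ hα hβ2
    refine ⟨y, x, hy, hx, ?_⟩
    unfold Tri
    have e : 1 + y + x = 1 + x + y := by ring
    rw [e]
    exact h
  · obtain ⟨x, y, hx, hy, h⟩ := coreA n N hn hN α β' hβ0 hα hβ hα2
    refine ⟨x, y, hx, hy, ?_⟩
    unfold Tri
    by_cases hs : 1 + x + y = 0
    · left; exact hs
    · right
      rcases h with h | h
      · exact absurd h hs
      have hx4 := (fix_of_pow_eq hdvd hα0 hα hx).1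
      have hy4 := (fix_of_pow_eq hdvd hβ0 hβ hy).1
      have hs4 : (1 + x + y) ^ (2 ^ (4 * n)) = 1 + x + y :=
        fix_add (fix_add (one_pow _) hx4) hy4
      have h3 := tr_inv_sq (4 * n) (1 + x + y) hs hs4
      have h4 : (1 + (1 + x + y)) / (1 + x + y) ^ 2 =
          x / (1 + x + y) ^ 2 + y / (1 + x + y) ^ 2 := by
        rw [← add_div]
        congr 1
        calc 1 + (1 + x + y) = (1 + 1) + (x + y) := by ring
          _ = x + y := by rw [CharTwo.add_self_eq_zero, zero_add]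
      rw [h4, tr_add, h] at h3
      exact CharTwo.add_eq_zero.mp h3

end Pool.Agent.H294R2.Ramsey
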