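import Mathlib
import Pool.Agent.H294R2.Ramsey.Step

set_option autoImplicit false

/-!
The core statement over the field with 256 elements, verified by a table computation.
-/

open Finset Polynomial

namespace Pool.Agent.H294R2.Ramsey

/-- bytes of the powers of a primitive element of the field with 256 elements -/
def TAB : ℕ := 0x8e47add86c361b83cfe9fa7db0582c160b8bcbebfbf3f7f5f47a3d90482412098a45ac562b9bc3eff9f279b259a251a653a7dde070381c0e078dc86432198241ae57a5dc6e3795c46231964babdbe3fff1f67bb3d7e5fc7e3f91c663bfd1e673b7d5e472399249aa55a452299a4da8542a158442219e4fa9da6db85c2e1785cc663397c5ec763b93c7edf87c3e1f81ce67bdd068341a0d884422118643afd9e271b65ba3dfe1fe7fb1d66bbbd3e7fdf0783c1e0f89ca65bc5e2f99c261be5fa1de6fb9d269ba5da05028140a058c46239fc1ee77b5d46a35944a259c4e279dc06030180c06038fc9ea75b45a2d984c261387cde8743a1d8040201008040201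

/-- discrete logarithms -/
def LOG : ℕ := 0xaf5850a8eaf4d674e8ade7e6e9d5ae4fd72c757aeb16f50b51a0a99cb05f59cb5a3eccbbb18660fbaa559d29523ba16cf66f0c7fec4917c476a47bb7d8432d1fa2416d4753393c849e5d2a14abd356f261befcdcb2978790cdcfbc955bd13f372e892023d99244117cb4b8267799a5e318fec531edde4a670d63808cf7c0700757a7f373ace5d44e2b79150a9f9b5eca3dba85fa54283a6b6e7e48c3a3b6421e404638835c13d2f1bddb968fce94d03688229110b32598e2fd30dd66628bbf06a672e44d78099ac9b9f9276a7dc2b51d458212f0da8e9335210f24e12f658a05714c08c8f869c11c81ef8d340ee064044bc7681bee33df03c61a320219010000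

/-- witnesses -/
def WIT : ℕ := 0x1184402040000060080e000002000010802101840004800100000020000600802100861000430000408822099001002100800108000000008020094c0004011840100820000031840008403018601002008822084c1004400000008002180000900000024280200002000001100000080010c410800000020108062080018c80104010040008c221000200420008011000100c00004c00804408c0101820000212800100c21080810880000000004610808418801000e2080030002000040084000880000c401040208000208220040208c2001000100400000208c24080000000100c00000432002200c0220000004000046200840000010800000042008000802010400080410046108400104000800100002000400046000821110041800100021080211040100c00184001040010040104210084100020004201840000001108a010040004240042100c2010001000c00040000821080400004108020080400804118400080070006008800084e3180210000000000080211802108420004011046500ca1084400044000060000c20146018020080201000000400084220002300001080220002000c20004600000208401008010000100801090000002008041104010080008080000410000000002008001000208482100200082238860004230880208061000000044010c0108463000212800100003180010040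0084010000100c0008000080400000018400084210080210025104e30042010001000000082010000100200048000822004231002008060100420880210c00080410080000c62088000000308c2100003008200008000c2008020000610082100c020808100400084001082100401084010840000001000010040010c200002140c2000820004202000019c0008020004000048308020010610000000002000001000008140088001040008420000000040020022004a100400104200804108020004020042000003080010000208020080210004210000008210040100402000200080000860184000040128021014400000008000000020804118400000010800511400000401002008040000030044008000100022000000040004200002120841014200080000c440040008401080400000000401008a018040000000000000022000211800001401004000882108004080223800008462080000040008440000200000118001014030084010021080410042008401100400088128001004230840220021000401842000000100202004100021104401000000482000001880308400180010044308400180200006000c61180200040100040084420082618420100400842a1082000421000030800008842200010004008400004001082101c01004010940108000080000002111c41100200000128000000000806000c20008041040000401080041802000002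18820000030000108001104000840010001004010002200000180670802008402100000000008022084061886000402004000800000000090400000100003080410800420404080002000000c213000010080084001042400001108200088008020000c0000201900010c0000400008001000008400000211880008001000611800200401000030040008c6210400080230800110043000202000300021014c0000000000408000004000006000820100200080200002000c0004000000000403000a3080230080100061000200000020001080400808110023184040042408401000600000000401080000840008021000600802000401200010042009440000250804200800084020006008000008220000008041080210840008000200221802100800004200080200840180200040100c0008003004800008210041100000004000c0200c021880000081084220004008401004221040000801080200002000820004020046101040204201804110405100200004700040104400800008401000600002400802084020000000400080801000108001104000040000c000002200c203000600420084000000100802110241842000c410802101000084800082000401000002048108001084601802300c21008010840000000100010940001800180001840000821184000006008003000200100000802210000042110840204011002008061000230042100400004202082018480180010000000004000400844008c20104000080408020100200000010401000210802100000000000840100400000231800200420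

def vv (i : ℕ) : ℕ := (TAB >>> (8 * i)) % 256

def lg (a : ℕ) : ℕ := (LOG >>> (8 * a)) % 256

def wi (t : ℕ) : ℕ := (WIT >>> (5 * t)) % 32

def xt (a : ℕ) : ℕ := if a < 128 then 2 * a else (2 * a) ^^^ 285

def trv (e : ℕ) : ℕ :=
  vv (e * 1 % 255) ^^^ vv (e * 2 % 255) ^^^ vv (e * 4 % 255) ^^^ vv (e * 8 % 255) ^^^
  vv (e * 16 % 255) ^^^ vv (e * 32 % 255) ^^^ vv (e * 64 % 255) ^^^ vv (e * 128 % 255)

/-- the check for the pair of classes number `t` -/
def okxy (x y : ℕ) : Bool :=
  decide (x < 255) && decide (y < 255) &&
    (decide (1 ^^^ vv x ^^^ vv y = 0) ||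
      (decide (lg (1 ^^^ vv x ^^^ vv y) < 255) &&
        decide (vv (lg (1 ^^^ vv x ^^^ vv y)) = 1 ^^^ vv x ^^^ vv y) &&
        decide (trv ((x + 510 - 2 * lg (1 ^^^ vv x ^^^ vv y)) % 255) = 1)))

def ok (t : ℕ) : Bool :=
  (decide ((t / 51) % 17 = 0) && decide ((t % 51) % 17 = 0)) ||
    okxy (t / 51 + 51 * (wi t / 5)) (t % 51 + 51 * (wi t % 5))

theorem all_ok : (List.range 2601).all ok = true := by decide +kernel

theorem tab_ok : (List.range 254).all (fun i => decide (vv (i + 1) = xt (vv i))) = true := by
  decide +kernel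

theorem tab_zero : vv 0 = 1 := by decide +kernel

theorem tab_last : xt (vv 254) = 1 := by decide +kernel

theorem tab_85 : vv (lg (vv 85 ^^^ 1)) = vv 85 ^^^ 1 ∧ lg (vv 85 ^^^ 1) < 255 := by decide +kernel

theorem tab_51 : vv (lg (vv 51 ^^^ 1)) = vv 51 ^^^ 1 ∧ lg (vv 51 ^^^ 1) < 255 := by decide +kernel

theorem tab_15 : vv (lg (vv 15 ^^^ 1)) = vv 15 ^^^ 1 ∧ lg (vv 15 ^^^ 1) < 255 := by decide +kernel

variable {L : Type*} [Field L] [CharP L 2]

/-- evaluation of a polynomial over the field with two elements, given by its bits -/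
def ev (g : L) (a : ℕ) : L := ∑ i ∈ range 9, if a.testBit i then g ^ i else 0

theorem ev_xor (g : L) (a b : ℕ) : ev g (a ^^^ b) = ev g a + ev g b := by
  unfold ev
  rw [← Finset.sum_add_distrib]
  apply Finset.sum_congr rfl
  intro i _
  rw [Nat.testBit_xor]
  cases a.testBit i <;> cases b.testBit i <;> simp [CharTwo.add_self_eq_zero]

theorem ev_double (g : L) (a : ℕ) (ha : a < 256) : ev g (2 * a) = g * ev g a := by
  unfold ev
  rw [Finset.sum_range_succ' (fun i => if (2 * a).testBit i then g ^ i else 0) 8,
    Finset.sum_range_succ (fun i => if a.testBit i then g ^ i else 0) 8]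
  have h8 : a.testBit 8 = false := Nat.testBit_lt_two_pow (by simpa using ha)
  have h0 : (2 * a).testBit 0 = false := by
    rw [Nat.testBit_zero]; simp
  rw [h8, h0]
  simp only [Bool.false_eq_true, if_false, add_zero]
  rw [Finset.mul_sum]
  apply Finset.sum_congr rfl
  intro i _
  rw [Nat.testBit_succ]
  have : 2 * a / 2 = a := by omega
  rw [this]
  split_ifs
  · rw [pow_succ']
  · rw [mul_zero]

theorem ev_one (g : L) : ev g 1 = 1 := by
  unfold ev
  rw [Finset.sum_eq_single 0]
  · simp
  · intro i _ hi
    rw [if_neg]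
    rw [Nat.testBit_one_eq_true_iff_self_eq_zero]
    exact hi
  · simp

theorem ev_285 (g : L) (hg : g ^ 8 + g ^ 4 + g ^ 3 + g ^ 2 + 1 = 0) : ev g 285 = 0 := by
  have b0 : Nat.testBit 285 0 = true := by decide
  have b1 : Nat.testBit 285 1 = false := by decide
  have b2 : Nat.testBit 285 2 = true := by decide
  have b3 : Nat.testBit 285 3 = true := by decide
  have b4 : Nat.testBit 285 4 = true := by decide
  have b5 : Nat.testBit 285 5 = false := by decide
  have b6 : Nat.testBit 285 6 = false := by decide
  have b7 : Nat.testBit 285 7 = false := by decide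
  have b8 : Nat.testBit 285 8 = true := by decide
  have h : ev g 285 = g ^ 8 + g ^ 4 + g ^ 3 + g ^ 2 + 1 := by
    unfold ev
    simp only [Finset.sum_range_succ, Finset.sum_range_zero, b0, b1, b2, b3, b4, b5, b6, b7, b8]
    simp
    ring
  rw [h, hg]

theorem vv_lt (i : ℕ) : vv i < 256 := Nat.mod_lt _ (by norm_num)

theorem ev_xt (g : L) (hg : g ^ 8 + g ^ 4 + g ^ 3 + g ^ 2 + 1 = 0) (a : ℕ) (ha : a < 256) :
    ev g (xt a) = g * ev g a := by
  unfold xt
  split_ifs
  · exact ev_double g a ha
  · rw [ev_xor, ev_285 g hg, add_zero, ev_double g a ha]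

theorem ev_vv (g : L) (hg : g ^ 8 + g ^ 4 + g ^ 3 + g ^ 2 + 1 = 0) (i : ℕ) (hi : i < 255) :
    ev g (vv i) = g ^ i := by
  induction i with
  | zero => rw [tab_zero, ev_one, pow_zero]
  | succ i ih =>
    have h := tab_ok
    rw [List.all_eq_true] at h
    have h1 := h i (List.mem_range.mpr (by omega))
    rw [decide_eq_true_eq] at h1
    rw [h1, ev_xt g hg _ (vv_lt i), ih (by omega), pow_succ']

theorem g255 (g : L) (hg : g ^ 8 + g ^ 4 + g ^ 3 + g ^ 2 + 1 = 0) : g ^ 255 = 1 := by
  have h := ev_xt g hg (vv 254) (vv_lt _)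
  rw [tab_last, ev_one, ev_vv g hg 254 (by norm_num), ← pow_succ'] at h
  exact h.symm

theorem g_ne (g : L) (hg : g ^ 8 + g ^ 4 + g ^ 3 + g ^ 2 + 1 = 0) : g ≠ 0 := by
  rintro rfl
  norm_num at hg

theorem ne_one_aux (g : L) (hg : g ^ 8 + g ^ 4 + g ^ 3 + g ^ 2 + 1 = 0) (i : ℕ) (hi : i < 255)
    (h : vv (lg (vv i ^^^ 1)) = vv i ^^^ 1 ∧ lg (vv i ^^^ 1) < 255) : g ^ i ≠ 1 := by
  intro h1
  have h2 := ev_vv g hg _ h.2
  rw [h.1, ev_xor, ev_one, ev_vv g hg i hi, h1, CharTwo.add_self_eq_zero] at h2
  exact pow_ne_zero _ (g_ne g hg) h2.symm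

theorem g_prim (g : L) (hg : g ^ 8 + g ^ 4 + g ^ 3 + g ^ 2 + 1 = 0) : IsPrimitiveRoot g 255 := by
  have h : orderOf g = 255 := by
    apply orderOf_eq_of_pow_and_pow_div_prime (by norm_num) (g255 g hg)
    intro p hp hpd
    have h1 : p = 3 ∨ p = 5 ∨ p = 17 := by
      have h2 : p ∣ 3 * (5 * 17) := by simpa using hpd
      rcases (Nat.Prime.dvd_mul hp).mp h2 with h3 | h3
      · left; exact (Nat.prime_dvd_prime_iff_eq hp (by norm_num)).mp h3
      · rcases (Nat.Prime.dvd_mul hp).mp h3 with h4 | h4
        · right; left; exact (Nat.prime_dvd_prime_iff_eq hp (by norm_num)).mp h4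
        · right; right; exact (Nat.prime_dvd_prime_iff_eq hp (by norm_num)).mp h4
    rcases h1 with rfl | rfl | rfl
    · exact ne_one_aux g hg 85 (by norm_num) tab_85
    · exact ne_one_aux g hg 51 (by norm_num) tab_51
    · exact ne_one_aux g hg 15 (by norm_num) tab_15
  rw [← h]
  exact IsPrimitiveRoot.orderOf g

theorem tr_g (g : L) (hg : g ^ 8 + g ^ 4 + g ^ 3 + g ^ 2 + 1 = 0) (e : ℕ) :
    tr 8 (g ^ e) = ev g (trv e) := by
  have h255 := g255 g hg
  have key : ∀ c : ℕ, ev g (vv (e * c % 255)) = (g ^ e) ^ c := by
    intro c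
    rw [ev_vv g hg _ (Nat.mod_lt _ (by norm_num)), ← pow_mul]
    conv_rhs => rw [← Nat.mod_add_div (e * c) 255, pow_add, pow_mul g 255, h255, one_pow, mul_one]
  unfold trv tr
  simp only [ev_xor, key, Finset.sum_range_succ, Finset.sum_range_zero]
  norm_num

theorem okxy_spec (g : L) (hg : g ^ 8 + g ^ 4 + g ^ 3 + g ^ 2 + 1 = 0) (x y : ℕ)
    (h : okxy x y = true) : Tri 8 (g ^ x) (g ^ y) := by
  unfold okxy at h
  simp only [Bool.and_eq_true, Bool.or_eq_true, decide_eq_true_eq] at h
  obtain ⟨⟨hx, hy⟩, h⟩ := h
  have hs : ev g (1 ^^^ vv x ^^^ vv y) = 1 + g ^ x + g ^ y := by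
    rw [ev_xor, ev_xor, ev_one, ev_vv g hg x hx, ev_vv g hg y hy]
  set S := 1 ^^^ vv x ^^^ vv y with hS
  unfold Tri
  rcases h with h | ⟨⟨h1, h2⟩, h3⟩
  · left
    rw [← hs, h]
    unfold ev
    simp
  · right
    set k := lg S with hk
    have h4 : ev g S = g ^ k := by rw [← h2, ev_vv g hg k h1]
    rw [← hs, h4]
    have hg0 := g_ne g hg
    have h5 : g ^ x / (g ^ k) ^ 2 = g ^ ((x + 510 - 2 * k) % 255) := by
      rw [div_eq_iff (pow_ne_zero _ (pow_ne_zero _ hg0)), ← pow_mul, ← pow_add]
      have h6 : (x + 510 - 2 * k) % 255 + k * 2 + 255 * ((x + 510 - 2 * k) / 255) = x + 255 * 2 := by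
        have := Nat.mod_add_div (x + 510 - 2 * k) 255
        omega
      have h7 := congrArg (fun t => g ^ t) h6
      simp only [pow_add, pow_mul, g255 g hg, one_pow, mul_one] at h7
      rw [pow_add, pow_mul, h7]
    rw [h5, tr_g g hg, h3, ev_one]

/-- the core statement for the field with 16 elements and its subgroup of order 5 -/
theorem core_sixteen [IsAlgClosed L] (α β' : L) (hα0 : α ≠ 0) (hβ0 : β' ≠ 0)
    (hα : α ^ (2 ^ 8) = α) (hβ : β' ^ (2 ^ 8) = β')
    (h2 : ¬ (α ^ (2 ^ 4) = α ∧ β' ^ (2 ^ 4) = β')) :
    ∃ x y : L, x ^ 5 = α ^ 5 ∧ y ^ 5 = β' ^ 5 ∧ Tri 8 x y := by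
  obtain ⟨g, hg⟩ : ∃ g : L, g ^ 8 + g ^ 4 + g ^ 3 + g ^ 2 + 1 = 0 := by
    have hd : (X ^ 8 + X ^ 4 + X ^ 3 + X ^ 2 + 1 : L[X]).degree ≠ 0 := by
      have : (X ^ 8 + X ^ 4 + X ^ 3 + X ^ 2 + 1 : L[X]).degree = 8 := by compute_degree!
      rw [this]; norm_num
    obtain ⟨g, hg⟩ := IsAlgClosed.exists_root _ hd
    exact ⟨g, by simpa [IsRoot] using hg⟩
  have h255 := g255 g hg
  have hprim := g_prim g hg
  have pw : ∀ a : L, a ≠ 0 → a ^ (2 ^ 8) = a → ∃ i < 255, g ^ i = a := by
    intro a ha0 ha
    apply hprim.eq_pow_of_pow_eq_one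
    have : a * a ^ 255 = a * 1 := by
      rw [← pow_succ', mul_one]; simpa using ha
    exact mul_left_cancel₀ ha0 this
  obtain ⟨i, hi, rfl⟩ := pw α hα0 hα
  obtain ⟨j, hj, rfl⟩ := pw β' hβ0 hβ
  have h3 : ¬ ((i % 51) % 17 = 0 ∧ (j % 51) % 17 = 0) := by
    rintro ⟨h4, h5⟩
    apply h2
    have fx : ∀ i : ℕ, (i % 51) % 17 = 0 → (g ^ i) ^ (2 ^ 4) = g ^ i := by
      intro i hi
      obtain ⟨c, rfl⟩ : 17 ∣ i := by omega
      have : (g ^ (17 * c)) ^ (2 ^ 4) = g ^ (17 * c) * (g ^ 255) ^ c := by
        rw [← pow_mul, ← pow_mul, ← pow_add]; congr 1; ring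
      rw [this, h255, one_pow, mul_one]
    exact ⟨fx i h4, fx j h5⟩
  have hall := all_ok
  rw [List.all_eq_true] at hall
  have hlt : (i % 51) * 51 + j % 51 < 2601 := by
    have := Nat.mod_lt i (show 0 < 51 by norm_num)
    have := Nat.mod_lt j (show 0 < 51 by norm_num)
    omega
  have h4 := hall ((i % 51) * 51 + j % 51) (List.mem_range.mpr hlt)
  have e1 : ((i % 51) * 51 + j % 51) / 51 = i % 51 := by omega
  have e2 : ((i % 51) * 51 + j % 51) % 51 = j % 51 := by omega
  unfold ok at h4
  rw [e1, e2] at h4
  simp only [Bool.or_eq_true, Bool.and_eq_true, decide_eq_true_eq] at h4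
  rcases h4 with h4 | h4
  · exact absurd h4 h3
  have h5 := okxy_spec g hg _ _ h4
  refine ⟨_, _, ?_, ?_, h5⟩
  · rw [← pow_mul, ← pow_mul]
    have : i * 5 = (i % 51) * 5 + 255 * (i / 51) := by
      have := Nat.mod_add_div i 51
      omega
    rw [this, pow_add, pow_mul g 255, h255, one_pow, mul_one, add_mul, pow_add]
    have h6 : ∀ c : ℕ, 51 * c * 5 = 255 * c := by intro c; ring
    rw [h6, pow_mul g 255, h255, one_pow, mul_one]
  · rw [← pow_mul, ← pow_mul]
    have : j * 5 = (j % 51) * 5 + 255 * (j / 51) := by
      have := Nat.mod_add_div j 51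
      omega
    rw [this, pow_add, pow_mul g 255, h255, one_pow, mul_one, add_mul, pow_add]
    have h6 : ∀ c : ℕ, 51 * c * 5 = 255 * c := by intro c; ring
    rw [h6, pow_mul g 255, h255, one_pow, mul_one]

end Pool.Agent.H294R2.Ramsey
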