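import Mathlib
import Pool.Agent.H294R2.Ramsey.Base

set_option autoImplicit false

/-!
The tower: the subgroup of order `NN k` of the field with `2 ^ (4 ^ k)` elements.
-/

open Finset Polynomial

namespace Pool.Agent.H294R2.Ramsey

variable (L : Type*) [Field L] [CharP L 2]

/-- the subgroup of order `N` of the multiplicative group of the field with `2 ^ m` elements is
sum-free and its cosets have all other triangles -/
def Good (m N : ℕ) : Prop :=
  (∀ x y : L, x ^ N = 1 → y ^ N = 1 → (x + y) ^ N ≠ 1) ∧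
  ∀ a b : L, a ≠ 0 → b ≠ 0 → a ^ (2 ^ m) = a → b ^ (2 ^ m) = b → ¬ (a ^ N = 1 ∧ b ^ N = 1) →
    ∃ x y : L, x ^ N = a ^ N ∧ y ^ N = b ^ N ∧ x + y = 1

variable {L}

theorem good_step [IsAlgClosed L] (m N : ℕ) (hN : N ∣ 2 ^ m - 1) (hG : Good L m N)
    (hcore : ∀ α β' : L, α ≠ 0 → β' ≠ 0 → α ^ (2 ^ (2 * m)) = α → β' ^ (2 ^ (2 * m)) = β' →
      ¬ (α ^ (2 ^ m) = α ∧ β' ^ (2 ^ m) = β') →
      ∃ x y : L, x ^ N = α ^ N ∧ y ^ N = β' ^ N ∧ Tri (2 * m) x y) :
    Good L (4 * m) ((2 ^ (2 * m) + 1) * N) := by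
  obtain ⟨hsf, hcov⟩ := hG
  have hN0 : 0 < N := by
    rcases Nat.eq_zero_or_pos N with h | h
    · subst h
      exact absurd (pow_zero _) (hsf 1 1 (pow_zero _) (pow_zero _))
    · exact h
  have one_fix : ∀ x : L, x ^ N = 1 → x ^ (2 ^ m) = x := by
    intro x hx
    exact (fix_of_pow_eq hN (a := (1 : L)) one_ne_zero (one_pow _) (by rw [hx, one_pow])).1
  have hN2 : N ∣ 2 ^ (2 * m) - 1 := by
    refine hN.trans ?_
    rw [mul_comm 2 m, pow_mul]
    have := Nat.sub_dvd_pow_sub_pow (2 ^ m) 1 2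
    rwa [one_pow] at this
  constructor
  · -- sum-free
    intro x y hx hy hxy
    rw [pow_mul] at hx hy hxy
    set q := 2 ^ (2 * m) with hq
    set X := x ^ (q + 1) with hX
    set Y := y ^ (q + 1) with hY
    set W := (x + y) ^ (q + 1) with hW
    have hXf := one_fix X hx
    have hYf := one_fix Y hy
    have hWf := one_fix W hxy
    have hX0 : X ≠ 0 := by
      intro h; rw [h, zero_pow (by omega)] at hx; exact zero_ne_one hx
    have hY0 : Y ≠ 0 := by
      intro h; rw [h, zero_pow (by omega)] at hy; exact zero_ne_one hy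
    have hx0 : x ≠ 0 := by
      rintro rfl; apply hX0; rw [hX, zero_pow (Nat.succ_ne_zero q)]
    have hy0 : y ≠ 0 := by
      rintro rfl; apply hY0; rw [hY, zero_pow (Nat.succ_ne_zero q)]
    -- `y ^ (q ^ 2) = y`
    have hXq : X ^ q = X := by
      have := fix_mono hXf 2
      rwa [mul_comm m 2] at this
    have hYq : Y ^ q = Y := by
      have := fix_mono hYf 2
      rwa [mul_comm m 2] at this
    have hyqq : (y ^ q) ^ q = y := by
      have h1 : (y ^ q) ^ q * y ^ q = y * y ^ q := by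
        have h2 : (y ^ (q + 1)) ^ q = y ^ (q + 1) := hYq
        rw [pow_succ, mul_pow] at h2
        rw [h2]; ring
      exact mul_right_cancel₀ (pow_ne_zero _ hy0) h1
    have hWe : W = X + Y + (x * y ^ q + x ^ q * y) := by
      have h1 : (x + y) ^ q = x ^ q + y ^ q := add_pow_two_pow x y _
      rw [hW, pow_succ, h1, hX, hY, pow_succ, pow_succ]; ring
    set w := x * y ^ q with hw
    have hwq : w ^ q = x ^ q * y := by rw [hw, mul_pow, hyqq]
    set t := w + w ^ q with ht
    have ht' : t = W + X + Y := by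
      rw [hWe, ← hwq]
      calc t = (w + w ^ q) + ((X + X) + (Y + Y)) := by
            rw [CharTwo.add_self_eq_zero, CharTwo.add_self_eq_zero]; simp [ht]
        _ = _ := by ring
    have htf : t ^ (2 ^ m) = t := by rw [ht']; exact fix_add (fix_add hWf hXf) hYf
    have hn : w * w ^ q = X * Y := by
      rw [hwq, hw, hX, hY, pow_succ, pow_succ]; ring
    have hquad : w * (w + t) = X * Y := by
      rw [← hn, ht]
      calc w * (w + (w + w ^ q)) = (w * w + w * w) + w * w ^ q := by ring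
        _ = w * w ^ q := by rw [CharTwo.add_self_eq_zero, zero_add]
    have hquad2 : w ^ (2 ^ m) * (w ^ (2 ^ m) + t) = X * Y := by
      have h1 : (w * (w + t)) ^ (2 ^ m) = X * Y := by
        rw [hquad]; exact fix_mul hXf hYf
      rw [mul_pow, add_pow_two_pow, htf] at h1
      exact h1
    have hfac : (w ^ (2 ^ m) + w) * (w ^ (2 ^ m) + w + t) = 0 := by
      have h1 : (w ^ (2 ^ m) + w) * (w ^ (2 ^ m) + w + t) =
          w ^ (2 ^ m) * (w ^ (2 ^ m) + t) + w * (w + t) +
            (w ^ (2 ^ m) * w + w ^ (2 ^ m) * w) := by ring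
      rw [h1, hquad, hquad2, CharTwo.add_self_eq_zero, CharTwo.add_self_eq_zero, add_zero]
    have hwfix : w ^ q = w := by
      have hqq : w ^ q = (w ^ (2 ^ m)) ^ (2 ^ m) := by
        rw [← pow_mul, ← pow_add, hq, two_mul]
      rcases mul_eq_zero.mp hfac with h1 | h1
      · have h2 : w ^ (2 ^ m) = w := CharTwo.add_eq_zero.mp h1
        rw [hqq, h2, h2]
      · have h2 : w ^ (2 ^ m) = w + t := by
          have h3 : w ^ (2 ^ m) + (w + t) = 0 := by rw [← h1]; ring
          exact CharTwo.add_eq_zero.mp h3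
        rw [hqq, h2, add_pow_two_pow, h2, htf, add_assoc, CharTwo.add_self_eq_zero, add_zero]
    have ht0 : t = 0 := by rw [ht, hwfix, CharTwo.add_self_eq_zero]
    have hWXY : X + Y = W := by
      rw [ht0] at ht'
      have h1 : W + (X + Y) = 0 := by rw [ht']; ring
      exact (CharTwo.add_eq_zero.mp h1).symm
    exact hsf X Y hx hy (by rw [hWXY]; exact hxy)
  · -- covering
    intro a b ha0 hb0 ha hb hab
    rw [pow_mul a (2 ^ (2 * m) + 1) N, pow_mul b (2 ^ (2 * m) + 1) N] at hab
    set q := 2 ^ (2 * m) with hq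
    have hqq : q * q = 2 ^ (4 * m) := by rw [hq, ← pow_add]; congr 1; ring
    have norm_fix : ∀ c : L, c ^ (2 ^ (4 * m)) = c → (c ^ (q + 1)) ^ q = c ^ (q + 1) := by
      intro c hc
      rw [← pow_mul, add_mul, pow_add, hqq, hc, one_mul, pow_succ, mul_comm]
    set α := a ^ (q + 1) with hα
    set β' := b ^ (q + 1) with hβ
    have hα0 : α ≠ 0 := pow_ne_zero _ ha0
    have hβ0 : β' ≠ 0 := pow_ne_zero _ hb0
    have hαq : α ^ q = α := norm_fix a ha
    have hβq : β' ^ q = β' := norm_fix b hb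
    obtain ⟨x, y, hx, hy, htri⟩ : ∃ x y : L, x ^ N = α ^ N ∧ y ^ N = β' ^ N ∧ Tri (2 * m) x y := by
      by_cases h : α ^ (2 ^ m) = α ∧ β' ^ (2 ^ m) = β'
      · obtain ⟨x, y, hx, hy, hxy⟩ := hcov α β' hα0 hβ0 h.1 h.2 hab
        refine ⟨x, y, hx, hy, Or.inl ?_⟩
        rw [add_assoc, hxy, CharTwo.add_self_eq_zero]
      · exact hcore α β' hα0 hβ0 hαq hβq h
    have hxq : x ^ q = x := (fix_of_pow_eq hN2 hα0 hαq hx).1
    have hyq : y ^ q = y := (fix_of_pow_eq hN2 hβ0 hβq hy).1
    rcases htri with h | h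
    · obtain ⟨u, hu⟩ : ∃ u : L, u ^ 2 = x := IsAlgClosed.exists_pow_nat_eq x (by norm_num)
      obtain ⟨v, hv⟩ : ∃ v : L, v ^ 2 = y := IsAlgClosed.exists_pow_nat_eq y (by norm_num)
      have key : ∀ u x : L, u ^ 2 = x → x ^ q = x → u ^ (q + 1) = x := by
        intro u x hu hx
        have h1 : u ^ q = u := by
          apply frob_inj _ _ 1
          rw [pow_one, ← pow_mul, mul_comm, pow_mul, hu, hx]
        rw [pow_succ, h1, ← hu, sq]
      refine ⟨u, v, ?_, ?_, ?_⟩
      · rw [pow_mul, pow_mul, key u x hu hxq, hx]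
      · rw [pow_mul, pow_mul, key v y hv hyq, hy]
      · apply frob_inj _ _ 1
        rw [pow_one, one_pow]
        have := add_pow_two_pow u v 1
        rw [pow_one] at this
        rw [this, hu, hv]
        have h2 : 1 + (x + y) = 0 := by rw [← h]; ring
        exact (CharTwo.add_eq_zero.mp h2).symm
    · set s : L := 1 + x + y with hs
      have hs0 : s ≠ 0 := by
        intro h0
        rw [h0] at h
        simp [tr] at h
      have hsq : s ^ q = s := fix_add (fix_add (one_pow _) hxq) hyq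
      obtain ⟨t, ht⟩ : ∃ t : L, t ^ 2 + t = x / s ^ 2 := by
        have hd : (X ^ 2 + X - C (x / s ^ 2) : L[X]).degree ≠ 0 := by
          have : (X ^ 2 + X - C (x / s ^ 2) : L[X]).degree = 2 := by compute_degree!
          rw [this]; norm_num
        obtain ⟨t, ht⟩ := IsAlgClosed.exists_root _ hd
        refine ⟨t, ?_⟩
        simp only [IsRoot, eval_sub, eval_add, eval_pow, eval_X, eval_C] at ht
        exact sub_eq_zero.mp ht
      have htq : t ^ q = t + 1 := by
        have h1 : tr (2 * m) (t ^ 2 + t) = t ^ q + t := by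
          rw [tr_add, tr_sq, tr_sq_add]
        rw [ht, h] at h1
        have h2 : t ^ q + (t + 1) = 0 := by
          calc t ^ q + (t + 1) = (t ^ q + t) + 1 := by ring
            _ = 1 + 1 := by rw [← h1]
            _ = 0 := CharTwo.add_self_eq_zero 1
        exact CharTwo.add_eq_zero.mp h2
      have hst : s * t * (s * t + s) = x := by
        have h1 : s * t * (s * t + s) = s ^ 2 * (t ^ 2 + t) := by ring
        rw [h1, ht, mul_div_cancel₀ _ (pow_ne_zero _ hs0)]
      have hu : (s * t) ^ q = s * t + s := by rw [mul_pow, hsq, htq]; ring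
      refine ⟨s * t, 1 + s * t, ?_, ?_, ?_⟩
      · rw [pow_mul, pow_mul, ← hx]
        congr 1
        rw [pow_succ, hu, ← hst]; ring
      · rw [pow_mul, pow_mul, ← hy]
        congr 1
        have h1 : (1 + s * t) ^ q = 1 + (s * t + s) := by
          rw [add_pow_two_pow, one_pow, hu]
        rw [pow_succ, h1]
        have h2 : (1 + (s * t + s)) * (1 + s * t) =
            1 + s + s * t * (s * t + s) + (s * t + s * t) := by ring
        rw [h2, hst, CharTwo.add_self_eq_zero, add_zero, hs]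
        calc 1 + (1 + x + y) + x = (1 + 1) + (x + x) + y := by ring
          _ = y := by rw [CharTwo.add_self_eq_zero, CharTwo.add_self_eq_zero, zero_add, zero_add]
      · calc s * t + (1 + s * t) = (s * t + s * t) + 1 := by ring
          _ = 1 := by rw [CharTwo.add_self_eq_zero, zero_add]

/-- the order of the subgroup -/
def NN : ℕ → ℕ
  | 0 => 1
  | (k + 1) => (2 ^ (2 * 4 ^ k) + 1) * NN k

/-- the number of colours -/
def MM : ℕ → ℕ
  | 0 => 1
  | (k + 1) => (2 ^ (4 ^ k) + 1) * MM k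

theorem NN_MM (k : ℕ) : NN k * MM k = 2 ^ (4 ^ k) - 1 := by
  induction k with
  | zero => simp [NN, MM]
  | succ k ih =>
    have h1 : NN (k + 1) * MM (k + 1) =
        (2 ^ (2 * 4 ^ k) + 1) * ((2 ^ (4 ^ k) + 1) * (NN k * MM k)) := by
      simp only [NN, MM]; ring
    rw [h1, ih]
    obtain ⟨c, hc⟩ : ∃ c, 2 ^ (4 ^ k) = c + 1 := ⟨2 ^ (4 ^ k) - 1, by
      have : 1 ≤ 2 ^ (4 ^ k) := Nat.one_le_two_pow
      omega⟩
    have h2 : 2 ^ (2 * 4 ^ k) = (c + 1) ^ 2 := by rw [mul_comm, pow_mul, hc]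
    have h3 : 2 ^ (4 ^ (k + 1)) = (c + 1) ^ 4 := by rw [pow_succ, pow_mul, hc]
    rw [h2, h3, hc]
    have h4 : (c + 1) ^ 4 = ((c + 1) ^ 2 + 1) * ((c + 1 + 1) * (c + 1 - 1)) + 1 := by
      simp only [Nat.add_sub_cancel]; ring
    rw [h4, Nat.add_sub_cancel, Nat.add_sub_cancel]

theorem MM_pos (k : ℕ) : 0 < MM k := by
  induction k with
  | zero => simp [MM]
  | succ k ih => simp only [MM]; positivity

theorem MM_lt (k : ℕ) : MM k < MM (k + 1) := by
  have := MM_pos k
  have h2 : 0 < 2 ^ (4 ^ k) := by positivity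
  simp only [MM]
  nlinarith

variable [IsAlgClosed L]

theorem good_zero : Good L 1 1 := by
  constructor
  · intro x y hx hy h
    rw [pow_one] at hx hy h
    rw [hx, hy, CharTwo.add_self_eq_zero] at h
    exact zero_ne_one h
  · intro a b ha0 hb0 ha hb hab
    exfalso
    apply hab
    have key : ∀ a : L, a ≠ 0 → a ^ (2 ^ 1) = a → a ^ 1 = 1 := by
      intro a ha0 ha
      rw [pow_one, sq] at ha
      rw [pow_one]
      exact mul_left_cancel₀ ha0 (by rw [ha, mul_one])
    exact ⟨key a ha0 ha, key b hb0 hb⟩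

theorem core_two (α β' : L) (hα0 : α ≠ 0) (hβ0 : β' ≠ 0)
    (hα : α ^ (2 ^ (2 * 1)) = α) (hβ : β' ^ (2 ^ (2 * 1)) = β')
    (h2 : ¬ (α ^ (2 ^ 1) = α ∧ β' ^ (2 ^ 1) = β')) :
    ∃ x y : L, x ^ 1 = α ^ 1 ∧ y ^ 1 = β' ^ 1 ∧ Tri (2 * 1) x y := by
  refine ⟨α, β', rfl, rfl, ?_⟩
  have cube : ∀ a : L, a ≠ 0 → a ^ (2 ^ (2 * 1)) = a → a = 1 ∨ a ^ 2 + a + 1 = 0 := by
    intro a ha0 ha
    have h3 : a ^ 3 = 1 := by
      have : a * a ^ 3 = a * 1 := by
        rw [mul_one]
        calc a * a ^ 3 = a ^ (2 ^ (2 * 1)) := by ring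
          _ = a := ha
      exact mul_left_cancel₀ ha0 this
    have h4 : (a - 1) * (a ^ 2 + a + 1) = 0 := by
      have : (a - 1) * (a ^ 2 + a + 1) = a ^ 3 - 1 := by ring
      rw [this, h3, sub_self]
    rcases mul_eq_zero.mp h4 with h | h
    · left; exact sub_eq_zero.mp h
    · right; exact h
  have e2 : (2 : L) = 0 := CharTwo.two_eq_zero
  have trt : ∀ c : L, tr (2 * 1) c = c + c ^ 2 := by
    intro c; simp [tr, Finset.sum_range_succ]
  have one_ne : ∀ a : L, a ^ 2 + a + 1 = 0 → a ≠ 0 ∧ a ≠ 1 := by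
    intro a ha
    constructor
    · rintro rfl; norm_num at ha
    · rintro rfl
      have : (1 : L) ^ 2 + 1 + 1 = 1 := by linear_combination e2
      rw [this] at ha
      exact one_ne_zero ha
  unfold Tri
  rcases cube α hα0 hα with ha | ha <;> rcases cube β' hβ0 hβ with hb | hb
  · exfalso; apply h2; rw [ha, hb]; simp
  · -- α = 1
    right
    obtain ⟨hb0, hb1⟩ := one_ne β' hb
    have hs : 1 + α + β' = β' := by rw [ha]; linear_combination e2
    rw [hs, ha, trt]
    field_simp
    linear_combination (β' ^ 2 + β' + 1) * hb - (β' ^ 3 + β' ^ 2 + β' + β' ^ 4) * e2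
  · right
    obtain ⟨ha0, ha1⟩ := one_ne α ha
    have hs : 1 + α + β' = α := by rw [hb]; linear_combination e2
    rw [hs, trt]
    field_simp
    linear_combination ha - α ^ 2 * e2
  · -- both primitive cube roots
    have h5 : (α + β') * (α + β' + 1) = 0 := by
      linear_combination ha + hb + (α * β' - 1) * e2
    rcases mul_eq_zero.mp h5 with h6 | h6
    · right
      have hs : 1 + α + β' = 1 := by linear_combination h6
      rw [hs, trt]
      simp only [one_pow, div_one]
      linear_combination ha - e2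
    · left; linear_combination h6

theorem good_tower (k : ℕ) : Good L (4 ^ k) (NN k) := by
  induction k with
  | zero => simpa [NN] using (good_zero (L := L))
  | succ k ih =>
    have hdvd : NN k ∣ 2 ^ (4 ^ k) - 1 := ⟨MM k, (NN_MM k).symm⟩
    have e1 : 4 ^ (k + 1) = 4 * 4 ^ k := by ring
    rw [e1]
    show Good L (4 * 4 ^ k) ((2 ^ (2 * 4 ^ k) + 1) * NN k)
    apply good_step (4 ^ k) (NN k) hdvd ih
    rcases k with _ | k
    · simp only [pow_zero, NN]
      exact core_two
    rcases k with _ | k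
    · simp only [zero_add, pow_one, NN, pow_zero, mul_one]
      intro α β' h1 h2 h3 h4 h5
      have := core_sixteen α β' h1 h2 (by simpa using h3) (by simpa using h4) (by simpa using h5)
      simpa using this
    · intro α β' h1 h2 h3 h4 h5
      set n := 2 * 4 ^ (k + 1) with hn
      have e2 : 4 ^ (k + 1 + 1) = 2 * n := by rw [hn]; ring
      have e3 : 2 * 4 ^ (k + 1 + 1) = 4 * n := by rw [hn]; ring
      have hn7 : 7 ≤ n := by
        have : 1 ≤ 4 ^ k := Nat.one_le_pow _ _ (by norm_num)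
        rw [hn, pow_succ]; omega
      rw [e3] at h3 h4 ⊢
      rw [e2] at h5 hdvd
      refine core_large n (NN (k + 1 + 1)) hn7 ?_ hdvd ?_ α β' h1 h2 h3 h4 h5
      · exact ⟨NN (k + 1), by simp only [NN, hn]⟩
      · rcases Nat.eq_zero_or_pos (NN (k + 1 + 1)) with h0 | h0
        · rw [h0] at hdvd
          have h6 := Nat.eq_zero_of_zero_dvd hdvd
          have h7 : 1 < 2 ^ (2 * n) := Nat.one_lt_two_pow (by omega)
          omega
        · exact h0

end Pool.Agent.H294R2.Ramsey
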